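import Pool.Agent.Helper63.D4.T1E
import Pool.Agent.Helper26.D5.Sheet

/-! Row T1F of the sheet D5 (MP_fcb106_co): the fractional closure theorem with three kinds of
deficits. -/

set_option autoImplicit false

namespace Pool.Agent.Helper63.D5

open Finset Pool.Agent.Helper33.DP Pool.Agent.Helper14.PL Pool.Agent.Helper63.D4
open Pool.Agent.Helper26.D5

/-- the points of the minimax argument: a routing and six matrices of deficits -/
abbrev EF (w : ℕ) : Type := (Fin w → Fin w → Fin w → ℝ) × (Fin 6 → Fin w → Fin w → ℝ)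

/-- the admissible points -/
def ZF {w : ℕ} (G₁ G₂ : Gr w) (μ : Fin w → Fin w → ℝ) (Λ : ℝ) : Set (EF w) :=
  {u | u.1 ∈ ZZ G₁ G₂ μ ∧ (∀ a, Cl (u.2 0 a)) ∧ (∀ x, Cl (fun a => u.2 1 a x)) ∧
    (∀ x, Cl (u.2 2 x)) ∧ (∀ b, Cl (fun x => u.2 3 x b)) ∧ Psi (u.2 4) ≤ Λ ∧ Psi (u.2 5) ≤ Λ}

theorem ZF_convex (hP3 : ST_PS3) {w : ℕ} (G₁ G₂ : Gr w) (μ : Fin w → Fin w → ℝ) (Λ : ℝ) :
    Convex ℝ (ZF G₁ G₂ μ Λ) := by
  intro u hu u' hu' s t hs ht hst
  obtain ⟨q1, q2, q3, q4, q5, q6, q7⟩ := hu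
  obtain ⟨r1, r2, r3, r4, r5, r6, r7⟩ := hu'
  refine ⟨ZZ_convex G₁ G₂ μ q1 r1 hs ht hst, ?_, ?_, ?_, ?_, ?_, ?_⟩
  · intro a
    exact Cl_mix (q2 a) (r2 a) hs ht hst
  · intro x
    exact Cl_mix (q3 x) (r3 x) hs ht hst
  · intro x
    exact Cl_mix (q4 x) (r4 x) hs ht hst
  · intro b
    exact Cl_mix (q5 b) (r5 b) hs ht hst
  · exact hP3 w (u.2 4) (u'.2 4) s t Λ hs ht hst q6 r6
  · exact hP3 w (u.2 5) (u'.2 5) s t Λ hs ht hst q7 r7

section

variable {w : ℕ} {G₁ G₂ : Gr w} {μ : Fin w → Fin w → ℝ} {Λ e : ℝ}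

theorem ZF_left (hE : ∀ F' : Fin w → Fin w → ℝ, Psi F' ≤ Λ → ∀ a b, |F' a b| ≤ e)
    (h2 : IsCore G₂) {u : EF w} (hu : u ∈ ZF G₁ G₂ μ Λ) {a x : Fin w} (h : (a, x) ∈ G₁) :
    0 < ∑ b, u.1 a x b + u.2 0 a x + u.2 1 a x + (e + u.2 4 a x) := by
  obtain ⟨q1, q2, q3, q4, q5, q6, q7⟩ := hu
  have e1 := ZZ_left h2 q1 h
  have e2 := (q2 a).1 x
  have e3 : 0 ≤ u.2 1 a x := (q3 x).1 a
  have e4 := (abs_le.mp (hE _ q6 a x)).1
  linarith

theorem ZF_right (hE : ∀ F' : Fin w → Fin w → ℝ, Psi F' ≤ Λ → ∀ a b, |F' a b| ≤ e)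
    (h1 : IsCore G₁) {u : EF w} (hu : u ∈ ZF G₁ G₂ μ Λ) {x b : Fin w} (h : (x, b) ∈ G₂) :
    0 < ∑ a, u.1 a x b + u.2 2 x b + u.2 3 x b + (e + u.2 5 x b) := by
  obtain ⟨q1, q2, q3, q4, q5, q6, q7⟩ := hu
  have e1 := ZZ_right h1 q1 h
  have e2 := (q4 x).1 b
  have e3 : 0 ≤ u.2 3 x b := (q5 b).1 x
  have e4 := (abs_le.mp (hE _ q7 x b)).1
  linarith

end

open Classical in
/-- the potentials -/
noncomputable def phF {w : ℕ} (G₁ G₂ : Gr w) (e : ℝ) :
    Equiv.Perm (Fin w) ⊕ Equiv.Perm (Fin w) → EF w → ℝ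
  | Sum.inl σ, u => if PM G₁ σ then
      ∑ i, (∑ b, u.1 i (σ i) b + u.2 0 i (σ i) + u.2 1 i (σ i) + (e + u.2 4 i (σ i)))⁻¹ else 0
  | Sum.inr σ, u => if PM G₂ σ then
      ∑ i, (∑ a, u.1 a i (σ i) + u.2 2 i (σ i) + u.2 3 i (σ i) + (e + u.2 5 i (σ i)))⁻¹ else 0

theorem phF_convex (hP3 : ST_PS3) {w : ℕ} {G₁ G₂ : Gr w} (μ : Fin w → Fin w → ℝ) {Λ e : ℝ}
    (hE : ∀ F' : Fin w → Fin w → ℝ, Psi F' ≤ Λ → ∀ a b, |F' a b| ≤ e) (h1 : IsCore G₁)
    (h2 : IsCore G₂) (j : Equiv.Perm (Fin w) ⊕ Equiv.Perm (Fin w)) :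
    ConvexOn ℝ (ZF G₁ G₂ μ Λ) (phF G₁ G₂ e j) := by
  refine ⟨ZF_convex hP3 G₁ G₂ μ Λ, ?_⟩
  intro u hu u' hu' s t hs ht hst
  rcases j with σ | σ
  · by_cases hσ : PM G₁ σ
    · simp only [phF, if_pos hσ, smul_eq_mul, mul_sum, ← sum_add_distrib]
      refine sum_le_sum (fun i _ => ?_)
      have e0 : ∑ b, (s • u + t • u').1 i (σ i) b + (s • u + t • u').2 0 i (σ i) +
            (s • u + t • u').2 1 i (σ i) + (e + (s • u + t • u').2 4 i (σ i)) =
          s * (∑ b, u.1 i (σ i) b + u.2 0 i (σ i) + u.2 1 i (σ i) + (e + u.2 4 i (σ i))) +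
            t * (∑ b, u'.1 i (σ i) b + u'.2 0 i (σ i) + u'.2 1 i (σ i) +
              (e + u'.2 4 i (σ i))) := by
        have e1 : ∑ b, (s • u + t • u').1 i (σ i) b =
            s * ∑ b, u.1 i (σ i) b + t * ∑ b, u'.1 i (σ i) b := by
          rw [mul_sum, mul_sum, ← sum_add_distrib]
          rfl
        have e2 : (s • u + t • u').2 0 i (σ i) = s * u.2 0 i (σ i) + t * u'.2 0 i (σ i) := rfl
        have e3 : (s • u + t • u').2 1 i (σ i) = s * u.2 1 i (σ i) + t * u'.2 1 i (σ i) := rfl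
        have e4 : (s • u + t • u').2 4 i (σ i) = s * u.2 4 i (σ i) + t * u'.2 4 i (σ i) := rfl
        have e5 : e = s * e + t * e := by rw [← add_mul, hst, one_mul]
        rw [e1, e2, e3, e4]
        linear_combination e5
      rw [e0]
      exact inv_convex (ZF_left hE h2 hu (hσ i)) (ZF_left hE h2 hu' (hσ i)) hs ht hst
    · simp [phF, if_neg hσ]
  · by_cases hσ : PM G₂ σ
    · simp only [phF, if_pos hσ, smul_eq_mul, mul_sum, ← sum_add_distrib]
      refine sum_le_sum (fun i _ => ?_)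
      have e0 : ∑ a, (s • u + t • u').1 a i (σ i) + (s • u + t • u').2 2 i (σ i) +
            (s • u + t • u').2 3 i (σ i) + (e + (s • u + t • u').2 5 i (σ i)) =
          s * (∑ a, u.1 a i (σ i) + u.2 2 i (σ i) + u.2 3 i (σ i) + (e + u.2 5 i (σ i))) +
            t * (∑ a, u'.1 a i (σ i) + u'.2 2 i (σ i) + u'.2 3 i (σ i) +
              (e + u'.2 5 i (σ i))) := by
        have e1 : ∑ a, (s • u + t • u').1 a i (σ i) =
            s * ∑ a, u.1 a i (σ i) + t * ∑ a, u'.1 a i (σ i) := by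
          rw [mul_sum, mul_sum, ← sum_add_distrib]
          rfl
        have e2 : (s • u + t • u').2 2 i (σ i) = s * u.2 2 i (σ i) + t * u'.2 2 i (σ i) := rfl
        have e3 : (s • u + t • u').2 3 i (σ i) = s * u.2 3 i (σ i) + t * u'.2 3 i (σ i) := rfl
        have e4 : (s • u + t • u').2 5 i (σ i) = s * u.2 5 i (σ i) + t * u'.2 5 i (σ i) := rfl
        have e5 : e = s * e + t * e := by rw [← add_mul, hst, one_mul]
        rw [e1, e2, e3, e4]
        linear_combination e5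
      rw [e0]
      exact inv_convex (ZF_right hE h1 hu (hσ i)) (ZF_right hE h1 hu' (hσ i)) hs ht hst
    · simp [phF, if_neg hσ]

/-- **T1F**, the fractional closure theorem with three kinds of deficits -/
theorem T1F (hML : ST_ML) (h1 : ST_DS1) (h2 : ST_DS2) (h3 : ST_DS3) (h4 : ST_DS4)
    (hC1 : ST_CL1) (hC2 : ST_CL2) (hP1 : ST_PS1) (hP3 : ST_PS3) : ST_T1F := by
  classical
  intro w G G₁ G₂ μ R C F β β' e Λ hw hG₁ hG₂ hcomp hμ hR hC hF hE hB hβ
  obtain ⟨ε, hεd⟩ : ∃ ε : Fin w → Fin w → ℝ, ε = fun a b => R a b + C a b + (e + F a b) :=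
    ⟨_, rfl⟩
  have hεe : ∀ a b, ε a b = R a b + C a b + (e + F a b) := by
    intro a b
    rw [hεd]
  have hε : ∀ a b, 0 ≤ ε a b := by
    intro a b
    rw [hεe]
    have e1 := (hR a).1 b
    have e2 : 0 ≤ C a b := (hC b).1 a
    have e3 := (abs_le.mp (hE F hF a b)).1
    linarith
  have hB' : Bdd G (fun a b => μ a b + ε a b) β := by
    refine ⟨fun a b hab => ?_, fun σ hσ => ?_⟩
    · have := hB.pos a b hab
      have := hεe a b
      show 0 < μ a b + ε a b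
      linarith
    · refine le_trans (le_of_eq ?_) (hB.le σ hσ)
      refine sum_congr rfl fun i _ => ?_
      rw [hεe]
      congr 1
      ring
  -- β is positive
  have hβ0 : 0 < β := by
    obtain ⟨σ₁, hσ₁⟩ := hG₁.ex
    obtain ⟨σ₂, hσ₂⟩ := hG₂.ex
    have hpm : PM G (σ₁.trans σ₂) := by
      intro i
      exact hcomp (mem_comp.mpr ⟨σ₁ i, hσ₁ i, hσ₂ (σ₁ i)⟩)
    refine lt_of_lt_of_le ?_ (hB.le _ hpm)
    have : Nonempty (Fin w) := ⟨⟨0, hw⟩⟩
    exact sum_pos (fun i _ => inv_pos.mpr (hB.pos _ _ (hpm i))) univ_nonempty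
  obtain ⟨k, hk⟩ : ∃ k : ℝ, k = (β' - β) / (2 * β') := ⟨_, rfl⟩
  have hβ'0 : 0 < β' := lt_trans hβ0 hβ
  have hk0 : 0 < k := by rw [hk]; exact div_pos (by linarith) (by linarith)
  have hkβ : k * β' = (β' - β) / 2 := by rw [hk]; field_simp
  have hk1 : k < 1 := by
    rw [hk, div_lt_one (by linarith)]; linarith
  have h1k : 0 < 1 - k := by linarith
  have hβk : β / (1 - k) < β' := by
    rw [div_lt_iff₀ h1k]; nlinarith
  obtain ⟨u, hu, hφ⟩ := hML (Equiv.Perm (Fin w) ⊕ Equiv.Perm (Fin w))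
    (EF w) (ZF G₁ G₂ μ Λ) (phF G₁ G₂ e) (β / (1 - k)) β'
    (ZF_convex hP3 G₁ G₂ μ Λ) (phF_convex hP3 μ hE hG₁ hG₂) hβk (by
      intro θ hθ hθ1
      rw [Fintype.sum_sum_type] at hθ1
      obtain ⟨D0₁, hD0₁, -⟩ := h4 w G₁ hw hG₁
      obtain ⟨D0₂, hD0₂, -⟩ := h4 w G₂ hw hG₂
      obtain ⟨D₁, hD₁, hf₁⟩ := norm_DS h3 G₁ ⟨D0₁, hD0₁⟩
        (fun σ => if PM G₁ σ then θ (Sum.inl σ) else 0)
        (fun σ => by split_ifs; exact hθ _; exact le_rfl) (fun σ hσ => if_neg hσ)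
      obtain ⟨D₂, hD₂, hf₂⟩ := norm_DS h3 G₂ ⟨D0₂, hD0₂⟩
        (fun σ => if PM G₂ σ then θ (Sum.inr σ) else 0)
        (fun σ => by split_ifs; exact hθ _; exact le_rfl) (fun σ hσ => if_neg hσ)
      obtain ⟨D₁', hD₁', hp₁, hle₁⟩ := pos_mix h4 hw hG₁ hD₁ hk0 hk1
      obtain ⟨D₂', hD₂', hp₂, hle₂⟩ := pos_mix h4 hw hG₂ hD₂ hk0 hk1
      obtain ⟨v, hv⟩ : ∃ v : EF w, v = (rt μ D₁' D₂',
        ![fun a x => ∑ b, D₂' x b * R a b, fun a x => ∑ b, D₂' x b * C a b,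
          fun x b => ∑ a, D₁' a x * R a b, fun x b => ∑ a, D₁' a x * C a b,
          fun a x => ∑ b, D₂' x b * F a b, fun x b => ∑ a, D₁' a x * F a b]) := ⟨_, rfl⟩
      have v1 : v.1 = rt μ D₁' D₂' := by rw [hv]
      have w0 : v.2 0 = fun a x => ∑ b, D₂' x b * R a b := by rw [hv]; rfl
      have w1 : v.2 1 = fun a x => ∑ b, D₂' x b * C a b := by rw [hv]; rfl
      have w2 : v.2 2 = fun x b => ∑ a, D₁' a x * R a b := by rw [hv]; rfl
      have w3 : v.2 3 = fun x b => ∑ a, D₁' a x * C a b := by rw [hv]; rfl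
      have w4 : v.2 4 = fun a x => ∑ b, D₂' x b * F a b := by rw [hv]; rfl
      have w5 : v.2 5 = fun x b => ∑ a, D₁' a x * F a b := by rw [hv]; rfl
      have hzz : v ∈ ZF G₁ G₂ μ Λ := by
        refine ⟨?_, ?_, ?_, ?_, ?_, ?_, ?_⟩
        · rw [v1]
          refine ⟨fun a x b ha hb => ?_, fun a x b h => rt_zero hD₁' hD₂' h,
            fun a b h => rt_sum hD₁' hD₂' hp₁ hp₂ h⟩
          exact mul_pos (div_pos (hμ a b (hcomp (mem_comp.mpr ⟨x, ha, hb⟩)))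
            (prod_pos hD₁' hD₂' hp₁ hp₂ ha hb)) (mul_pos (hp₁ a x ha) (hp₂ x b hb))
        · intro a
          rw [w0]
          exact hC1 w D₂' (R a) hD₂'.nonneg hD₂'.row hD₂'.col (hR a)
        · intro x
          rw [w1]
          exact hC2 w (fun b => D₂' x b) (fun b a => C a b) (fun b => hD₂'.nonneg x b)
            (hD₂'.row x) hC
        · intro x
          rw [w2]
          exact hC2 w (fun a => D₁' a x) R (fun a => hD₁'.nonneg a x) (hD₁'.col x) hR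
        · intro b
          rw [w3]
          exact hC1 w (fun x a => D₁' a x) (fun a => C a b) (fun x a => hD₁'.nonneg a x)
            hD₁'.col hD₁'.row (hC b)
        · rw [w4]
          exact le_trans (hP1 w D₂' F hD₂'.nonneg hD₂'.row hD₂'.col).1 hF
        · rw [w5]
          exact le_trans (hP1 w D₁' F hD₁'.nonneg hD₁'.row hD₁'.col).2 hF
      have f1 : ∀ a x, ∑ b, v.1 a x b + v.2 0 a x + v.2 1 a x + (e + v.2 4 a x) =
          ∑ b, rt μ D₁' D₂' a x b + ∑ b, D₂' x b * ε a b := by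
        intro a x
        have g1 : ∑ b, D₂' x b * ε a b = ∑ b, D₂' x b * R a b + ∑ b, D₂' x b * C a b +
            (e + ∑ b, D₂' x b * F a b) := by
          have g2 : ∑ b, D₂' x b * ε a b = ∑ b, (D₂' x b * R a b + D₂' x b * C a b +
              (D₂' x b * e + D₂' x b * F a b)) := by
            refine sum_congr rfl fun b _ => ?_
            rw [hεe]
            ring
          rw [g2, sum_add_distrib, sum_add_distrib, sum_add_distrib, ← sum_mul, hD₂'.row x,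
            one_mul]
        rw [v1, w0, w1, w4, g1]
        ring
      have f2 : ∀ x b, ∑ a, v.1 a x b + v.2 2 x b + v.2 3 x b + (e + v.2 5 x b) =
          ∑ a, rt μ D₁' D₂' a x b + ∑ a, D₁' a x * ε a b := by
        intro x b
        have g1 : ∑ a, D₁' a x * ε a b = ∑ a, D₁' a x * R a b + ∑ a, D₁' a x * C a b +
            (e + ∑ a, D₁' a x * F a b) := by
          have g2 : ∑ a, D₁' a x * ε a b = ∑ a, (D₁' a x * R a b + D₁' a x * C a b +
              (D₁' a x * e + D₁' a x * F a b)) := by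
            refine sum_congr rfl fun a _ => ?_
            rw [hεe]
            ring
          rw [g2, sum_add_distrib, sum_add_distrib, sum_add_distrib, ← sum_mul, hD₁'.col x,
            one_mul]
        rw [v1, w2, w3, w5, g1]
        ring
      refine ⟨v, hzz, ?_⟩
      have hl := left_e h1 h2 hcomp hμ hε hB' hD₁' hD₂' hp₁ hp₂
      have hr := right_e h1 h2 hcomp hμ hε hB' hD₁' hD₂' hp₁ hp₂
      have nn1 : ∀ a x, 0 ≤ (∑ b, v.1 a x b + v.2 0 a x + v.2 1 a x + (e + v.2 4 a x))⁻¹ := by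
        intro a x
        obtain ⟨q1, q2, q3, q4, q5, q6, q7⟩ := hzz
        have e1 : 0 ≤ ∑ b, v.1 a x b := sum_nonneg fun b _ => ZZ_nonneg q1 a x b
        have e2 := (q2 a).1 x
        have e3 : 0 ≤ v.2 1 a x := (q3 x).1 a
        have e4 := (abs_le.mp (hE _ q6 a x)).1
        exact inv_nonneg.mpr (by linarith)
      have nn2 : ∀ x b, 0 ≤ (∑ a, v.1 a x b + v.2 2 x b + v.2 3 x b + (e + v.2 5 x b))⁻¹ := by
        intro x b
        obtain ⟨q1, q2, q3, q4, q5, q6, q7⟩ := hzz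
        have e1 : 0 ≤ ∑ a, v.1 a x b := sum_nonneg fun a _ => ZZ_nonneg q1 a x b
        have e2 := (q4 x).1 b
        have e3 : 0 ≤ v.2 3 x b := (q5 b).1 x
        have e4 := (abs_le.mp (hE _ q7 x b)).1
        exact inv_nonneg.mpr (by linarith)
      have hl' : ∑ a, ∑ x, D₁ a x *
          (∑ b, v.1 a x b + v.2 0 a x + v.2 1 a x + (e + v.2 4 a x))⁻¹ ≤ β / (1 - k) := by
        rw [le_div_iff₀ h1k]
        refine le_trans ?_ hl
        rw [sum_mul]
        refine sum_le_sum (fun a _ => ?_)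
        rw [sum_mul]
        refine sum_le_sum (fun x _ => ?_)
        have e1 := hle₁ a x
        rw [le_div_iff₀ h1k] at e1
        rw [← f1 a x]
        have e2 := mul_le_mul_of_nonneg_right e1 (nn1 a x)
        calc D₁ a x * (∑ b, v.1 a x b + v.2 0 a x + v.2 1 a x + (e + v.2 4 a x))⁻¹ * (1 - k)
            = D₁ a x * (1 - k) *
              (∑ b, v.1 a x b + v.2 0 a x + v.2 1 a x + (e + v.2 4 a x))⁻¹ := by ring
          _ ≤ _ := e2
      have hr' : ∑ x, ∑ b, D₂ x b *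
          (∑ a, v.1 a x b + v.2 2 x b + v.2 3 x b + (e + v.2 5 x b))⁻¹ ≤ β / (1 - k) := by
        rw [le_div_iff₀ h1k]
        refine le_trans ?_ hr
        rw [sum_mul]
        refine sum_le_sum (fun x _ => ?_)
        rw [sum_mul]
        refine sum_le_sum (fun b _ => ?_)
        have e1 := hle₂ x b
        rw [le_div_iff₀ h1k] at e1
        rw [← f2 x b]
        have e2 := mul_le_mul_of_nonneg_right e1 (nn2 x b)
        calc D₂ x b * (∑ a, v.1 a x b + v.2 2 x b + v.2 3 x b + (e + v.2 5 x b))⁻¹ * (1 - k)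
            = D₂ x b * (1 - k) *
              (∑ a, v.1 a x b + v.2 2 x b + v.2 3 x b + (e + v.2 5 x b))⁻¹ := by ring
          _ ≤ _ := e2
      rw [Fintype.sum_sum_type]
      have s1 : ∑ σ, θ (Sum.inl σ) * phF G₁ G₂ e (Sum.inl σ) v =
          (∑ σ, if PM G₁ σ then θ (Sum.inl σ) else 0) *
            ∑ a, ∑ x, D₁ a x *
              (∑ b, v.1 a x b + v.2 0 a x + v.2 1 a x + (e + v.2 4 a x))⁻¹ := by
        rw [← hf₁ (fun a x => (∑ b, v.1 a x b + v.2 0 a x + v.2 1 a x + (e + v.2 4 a x))⁻¹)]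
        refine sum_congr rfl (fun σ _ => ?_)
        by_cases hσ : PM G₁ σ
        · simp only [phF, if_pos hσ]
        · simp only [phF, if_neg hσ, mul_zero, zero_mul]
      have s2 : ∑ σ, θ (Sum.inr σ) * phF G₁ G₂ e (Sum.inr σ) v =
          (∑ σ, if PM G₂ σ then θ (Sum.inr σ) else 0) *
            ∑ x, ∑ b, D₂ x b *
              (∑ a, v.1 a x b + v.2 2 x b + v.2 3 x b + (e + v.2 5 x b))⁻¹ := by
        rw [← hf₂ (fun x b => (∑ a, v.1 a x b + v.2 2 x b + v.2 3 x b + (e + v.2 5 x b))⁻¹)]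
        refine sum_congr rfl (fun σ _ => ?_)
        by_cases hσ : PM G₂ σ
        · simp only [phF, if_pos hσ]
        · simp only [phF, if_neg hσ, mul_zero, zero_mul]
      rw [s1, s2]
      have t1 : (∑ σ, if PM G₁ σ then θ (Sum.inl σ) else 0) ≤ ∑ σ, θ (Sum.inl σ) :=
        sum_le_sum (fun σ _ => by split_ifs; exact le_rfl; exact hθ _)
      have t2 : (∑ σ, if PM G₂ σ then θ (Sum.inr σ) else 0) ≤ ∑ σ, θ (Sum.inr σ) :=
        sum_le_sum (fun σ _ => by split_ifs; exact le_rfl; exact hθ _)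
      have t3 : 0 ≤ (∑ σ, if PM G₁ σ then θ (Sum.inl σ) else 0) :=
        sum_nonneg (fun σ _ => by split_ifs; exact hθ _; exact le_rfl)
      have t4 : 0 ≤ (∑ σ, if PM G₂ σ then θ (Sum.inr σ) else 0) :=
        sum_nonneg (fun σ _ => by split_ifs; exact hθ _; exact le_rfl)
      have hc : 0 ≤ β / (1 - k) := (div_pos hβ0 h1k).le
      have u1 := mul_le_mul_of_nonneg_left hl' t3
      have u2 := mul_le_mul_of_nonneg_left hr' t4
      have u3 : ((∑ σ, if PM G₁ σ then θ (Sum.inl σ) else 0) +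
        (∑ σ, if PM G₂ σ then θ (Sum.inr σ) else 0)) * (β / (1 - k)) ≤ 1 * (β / (1 - k)) :=
        mul_le_mul_of_nonneg_right (by linarith) hc
      linarith)
  obtain ⟨q1, q2, q3, q4, q5, q6, q7⟩ := id hu
  refine ⟨u.1, u.2 0, u.2 1, u.2 4, u.2 2, u.2 3, u.2 5, ZZ_nonneg q1, q1.2.1, q1.2.2, q2,
    q3, q6, q4, q5, q7, ⟨fun a x h => ZF_left hE hG₂ hu h, ?_⟩,
    ⟨fun x b h => ZF_right hE hG₁ hu h, ?_⟩⟩
  · intro σ hσ
    have := hφ (Sum.inl σ)
    simp only [phF, if_pos hσ] at this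
    exact this.le
  · intro σ hσ
    have := hφ (Sum.inr σ)
    simp only [phF, if_pos hσ] at this
    exact this.le

end Pool.Agent.Helper63.D5
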